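import Pool.Agent.Helper18.SU.Goals2

/-!
Packet SU2 ASZ: the size of the set of vertices of small out-degree; few atypical vertices.
-/

set_option autoImplicit false

namespace Pool.Agent.Helper55.SU

open Pool.Agent.Helper18.SU

theorem ASZ (h1 : SIZ_stmt) (h2 : DSC_stmt) (h3 : DEG_stmt) : ASZ_stmt := by
  classical
  intro W V _ _ _ _ A r par dep sgn K β m G R hC hG hmid
  obtain ⟨hT, hRt, hrK, hK, -, -, hcard⟩ := hC
  obtain ⟨hs1, hs2, -⟩ := h1 V A hT
  obtain ⟨-, -, -, -, -, -, h7⟩ := h2 W r par dep hRt
  obtain ⟨-, -, -, -, hsum⟩ := h7 K hrK hK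
  have hp := hsum sgn
  have hKpos : 1 ≤ K.card := Finset.card_pos.2 ⟨r, hrK⟩
  have hV := hs2 (mas par sgn K true + G) (mas par sgn K false + G)
  have hlt := hs1 true (mas par sgn K true + G) (by omega)
  have hlf := hs1 false (mas par sgn K false + G) (by omega)
  refine ⟨by omega, by omega, fun x hx => ?_⟩
  have hx' : (nb A true Finset.univ x).card < mas par sgn K true + G := by
    simpa [low] using hx
  obtain ⟨-, -, -, -, -, hmono, -, -⟩ := h3 V A hT
  have := Finset.card_le_card
    (hmono true (low A true (mas par sgn K true + G)) Finset.univ x (Finset.subset_univ _))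
  exact ⟨lt_of_le_of_lt this hx', hx'⟩

theorem TYP (h1 : DEG_stmt) : TYP_stmt := by
  classical
  intro V _ A hT X p G E1 E2 hX hp
  obtain ⟨-, -, -, h4, -, -, -, -⟩ := h1 V A hT
  have h5 := h4 true X
  have hsub : typ A X p E2 ⊆ X := Finset.filter_subset _ _
  have hsplit := Finset.sum_sdiff (f := fun x => (nb A true X x).card) hsub
  have hc := Finset.card_sdiff_add_card_eq_card hsub
  have ht : ∑ x ∈ typ A X p E2, (nb A true X x).card ≤ (typ A X p E2).card * (p + G) := by
    have := Finset.sum_le_sum (s := typ A X p E2) (f := fun x => (nb A true X x).card)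
      (g := fun _ => p + G) fun x hx => hX x (hsub hx)
    simpa using this
  have hn : ∑ x ∈ X \ typ A X p E2, ((nb A true X x).card + E2) ≤
      (X \ typ A X p E2).card * p := by
    have := Finset.sum_le_sum (s := X \ typ A X p E2) (f := fun x => (nb A true X x).card + E2)
      (g := fun _ => p) fun x hx => by
        obtain ⟨hxX, hxt⟩ := Finset.mem_sdiff.1 hx
        have : ¬ (p ≤ (nb A true X x).card + E2) := fun h =>
          hxt (Finset.mem_filter.2 ⟨hxX, h⟩)
        omega
    simpa using this
  rw [Finset.sum_add_distrib, Finset.sum_const, smul_eq_mul] at hn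
  set k := (X \ typ A X p E2).card with hk
  set t := (typ A X p E2).card with htt
  set S1 := ∑ x ∈ typ A X p E2, (nb A true X x).card
  set S2 := ∑ x ∈ X \ typ A X p E2, (nb A true X x).card
  set N := X.card with hN
  have h6 : 2 * (S2 + S1) + N = N ^ 2 := by rw [hsplit]; exact h5
  have h7 : N * (2 * p) ≤ N * (N + E1) := Nat.mul_le_mul_left _ hp
  have h8 : t * (p + G) + k * (p + G) = N * (p + G) := by rw [← hc]; ring
  nlinarith

end Pool.Agent.Helper55.SU
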