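import Pool.Agent.Helper18.SU.Goals3

/-!
Packet SU3 CII3: Case II.
-/

set_option autoImplicit false

namespace Pool.Agent.Helper55.SU

open Pool.Agent.Helper18.SU

theorem CII3 (h1 : CIA3_stmt) (h2 : CIB3_stmt) (h3 : WT_stmt) (h4 : WGT_stmt) (h5 : DSC_stmt) :
    CII3_stmt := by
  classical
  intro W V _ _ _ _ A r par dep sgn K u m g e hC
  have hC' := hC
  obtain ⟨hctx, hm, hu, hp, hcase, hg, hgn, hgm, hmid⟩ := hC'
  obtain ⟨hT, hRt, hrK, hK, -, -, -⟩ := hctx
  obtain ⟨hw1, hw2, -⟩ := h4 W par sgn K
  have hsum : ∑ x ∈ K, wgt par sgn K {x} = mas par sgn K true := by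
    rw [← hw1 K, hw2]
  have he : 3 * (6801 * u + e) ≤ mas par sgn K true := by
    rcases hcase with ⟨-, he⟩ | ⟨-, he, hp'⟩ <;> omega
  obtain ⟨v, hv, hvv⟩ := h3 W r par dep hRt sgn K hrK hK (fun x => wgt par sgn K {x})
    (6801 * u + e) (by rw [hsum]; exact he)
  rcases hvv with hfirst | ⟨σ, C, hCC, hlo, hhi⟩
  · rw [hsum] at hfirst
    have hf2 : mas par sgn K true ≤ wgt par sgn K {v} + 3 * (6801 * u + e) := hfirst
    by_cases hbig : 13002 * u + 2 * e ≤
        ∑ c ∈ (topv par sgn K {v}).filter (fun c => 2 ≤ (dsc par c).card), (dsc par c).card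
    · exact Or.inl (h2 W V A r par dep sgn K u m g e hC v hv (by omega) hbig)
    · refine Or.inr ⟨v, hv, ?_⟩
      have hone : ∀ c, 1 ≤ (dsc par c).card := fun c =>
        Finset.card_pos.2 ⟨c, (h5 W r par dep hRt).1 c⟩
      have hsplit : wgt par sgn K {v} =
          ∑ c ∈ (topv par sgn K {v}).filter (fun c => (dsc par c).card = 1), (dsc par c).card +
          ∑ c ∈ (topv par sgn K {v}).filter (fun c => 2 ≤ (dsc par c).card), (dsc par c).card := by
        rw [wgt, ← Finset.sum_filter_add_sum_filter_not (topv par sgn K {v})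
          (fun c => (dsc par c).card = 1)]
        congr 1
        apply Finset.sum_congr _ (fun _ _ => rfl)
        ext c
        simp only [Finset.mem_filter]
        constructor
        · rintro ⟨h, h'⟩
          have := hone c
          exact ⟨h, by omega⟩
        · rintro ⟨h, h'⟩
          exact ⟨h, by omega⟩
      have hcard : ∑ c ∈ (topv par sgn K {v}).filter (fun c => (dsc par c).card = 1),
          (dsc par c).card =
          ((topv par sgn K {v}).filter (fun c => (dsc par c).card = 1)).card := by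
        rw [Finset.card_eq_sum_ones]
        exact Finset.sum_congr rfl fun c hc => (Finset.mem_filter.1 hc).2
      rw [hcard] at hsplit
      omega
  · rw [hsum] at hhi
    rw [← hw1] at hlo hhi
    exact Or.inl (h1 W V A r par dep sgn K u m g e hC v hv σ C hCC hlo hhi)

end Pool.Agent.Helper55.SU
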