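import Pool.Agent.Helper18.SU.Goals2

/-!
Packet SU2 DEG: facts about neighbourhoods.
-/

set_option autoImplicit false

namespace Pool.Agent.Helper55.SU

open Pool.Agent.Helper18.SU

theorem mem_nb {V : Type} (A : V → V → Prop) (d : Bool) (X : Finset V) (x y : V) :
    y ∈ nb A d X x ↔ y ∈ X ∧ Arc A d x y := by
  simp [nb]

theorem arc_not {V : Type} (A : V → V → Prop) (d : Bool) (x y : V) :
    Arc A (!d) y x ↔ Arc A d x y := by
  cases d <;> rfl

theorem DEG : DEG_stmt := by
  classical
  intro V _ A hA
  obtain ⟨hA1, hA2⟩ := hA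
  have hirr : ∀ x, ¬ A x x := fun x h => hA1 x x h h
  have hdisj : ∀ (X : Finset V) (x : V), Disjoint (nb A true X x) (nb A false X x) := by
    intro X x
    rw [Finset.disjoint_left]
    intro y hy hy'
    exact hA1 x y ((mem_nb A true X x y).1 hy).2 ((mem_nb A false X x y).1 hy').2
  have hself : ∀ (d : Bool) (X : Finset V) (x : V), x ∉ nb A d X x := by
    intro d X x h
    have := ((mem_nb A d X x x).1 h).2
    cases d <;> exact hirr x this
  have hunion : ∀ (X : Finset V) (x : V), nb A true X x ∪ nb A false X x = X.erase x := by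
    intro X x
    ext y
    rw [Finset.mem_union, mem_nb, mem_nb, Finset.mem_erase]
    constructor
    · rintro (⟨hy, h⟩ | ⟨hy, h⟩)
      · exact ⟨fun he => hirr x (he ▸ h), hy⟩
      · exact ⟨fun he => hirr x (he ▸ h), hy⟩
    · rintro ⟨hne, hy⟩
      rcases hA2 x y (fun h => hne h.symm) with h | h
      · exact Or.inl ⟨hy, h⟩
      · exact Or.inr ⟨hy, h⟩
  have hcard : ∀ (X : Finset V) (x : V),
      (nb A true X x).card + (nb A false X x).card = (X.erase x).card := by
    intro X x
    rw [← Finset.card_union_of_disjoint (hdisj X x), hunion]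
  have h1 : ∀ (X : Finset V) (x : V), x ∉ X →
      (nb A true X x).card + (nb A false X x).card = X.card := by
    intro X x hx
    rw [hcard, Finset.erase_eq_of_notMem hx]
  have h2 : ∀ (X : Finset V) (x : V), x ∈ X →
      (nb A true X x).card + (nb A false X x).card + 1 = X.card := by
    intro X x hx
    rw [hcard, Finset.card_erase_add_one hx]
  have h3 : ∀ (d : Bool) (X Y : Finset V),
      ∑ x ∈ X, (nb A d Y x).card = ∑ y ∈ Y, (nb A (!d) X y).card := by
    intro d X Y
    have hl : ∀ x, (nb A d Y x).card = ∑ y ∈ Y, if Arc A d x y then 1 else 0 := by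
      intro x
      rw [nb, Finset.card_filter]
    have hr : ∀ y, (nb A (!d) X y).card = ∑ x ∈ X, if Arc A d x y then 1 else 0 := by
      intro y
      rw [nb, Finset.card_filter]
      exact Finset.sum_congr rfl fun x _ => by simp only [arc_not]
    simp only [hl, hr]
    exact Finset.sum_comm
  have h4 : ∀ (d : Bool) (X : Finset V),
      2 * ∑ x ∈ X, (nb A d X x).card + X.card = X.card ^ 2 := by
    intro d X
    have h5 := h3 true X X
    have h6 : ∑ x ∈ X, ((nb A true X x).card + (nb A false X x).card + 1) = X.card * X.card := by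
      rw [Finset.sum_congr rfl fun x hx => h2 X x hx]
      simp
    rw [Finset.sum_add_distrib, Finset.sum_add_distrib] at h6
    simp only [Finset.sum_const, smul_eq_mul, mul_one] at h6
    simp only [Bool.not_true] at h5
    cases d
    · rw [pow_two]; omega
    · rw [pow_two]; omega
  refine ⟨h1, h2, h3, h4, ?_, ?_, hdisj, hself⟩
  · intro d X g hg
    have h5 := h4 d X
    have h6 : ∑ x ∈ X, (nb A d X x).card ≤ X.card * g := by
      have := Finset.sum_le_sum hg
      simpa using this
    by_contra hc
    push Not at hc
    have h7 : X.card * (2 * g + 1) < X.card * X.card :=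
      Nat.mul_lt_mul_of_pos_left hc (by omega)
    nlinarith
  · intro d X Y x hXY y hy
    obtain ⟨h, h'⟩ := (mem_nb A d X x y).1 hy
    exact (mem_nb A d Y x y).2 ⟨hXY h, h'⟩

theorem SIZ (h1 : DEG_stmt) : SIZ_stmt := by
  classical
  intro V _ _ A hA
  obtain ⟨-, hin, -, -, h5, h6, -, -⟩ := h1 V A hA
  refine ⟨?_, ?_, ?_⟩
  · intro d c hc
    have h7 : (low A d c).card ≤ 2 * (c - 1) + 1 := by
      refine h5 d (low A d c) (c - 1) fun x hx => ?_
      have h8 : (nb A d Finset.univ x).card < c := by
        simpa [low] using hx
      have h9 := Finset.card_le_card (h6 d (low A d c) Finset.univ x (Finset.subset_univ _))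
      omega
    omega
  · intro a b
    have h7 : (Finset.univ : Finset V) ⊆ (low A true a ∪ low A false b) ∪ mid A a b := by
      intro x _
      simp only [low, mid, Finset.mem_union, Finset.mem_filter, Finset.mem_univ, true_and]
      by_cases h : (nb A true Finset.univ x).card < a
      · exact Or.inl (Or.inl h)
      · by_cases h' : (nb A false Finset.univ x).card < b
        · exact Or.inl (Or.inr h')
        · exact Or.inr ⟨not_lt.1 h, not_lt.1 h'⟩
    have h8 := Finset.card_le_card h7
    have h9 := Finset.card_union_le (low A true a ∪ low A false b) (mid A a b)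
    have h10 := Finset.card_union_le (low A true a) (low A false b)
    rw [Finset.card_univ] at h8
    omega
  · intro x
    have := hin Finset.univ x (Finset.mem_univ _)
    rwa [Finset.card_univ] at this

end Pool.Agent.Helper55.SU
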