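import Pool.Agent.Helper18.SU.Goals2

/-!
Packet SU2 DSC: facts about subtrees.
-/

set_option autoImplicit false

namespace Pool.Agent.Helper55.SU

open Pool.Agent.Helper18.SU

theorem mem_dsc {W : Type} [Fintype W] (par : W → W) (c w : W) :
    w ∈ dsc par c ↔ ∃ k : ℕ, par^[k] w = c := by
  simp [dsc]

theorem mem_tops {W : Type} [Fintype W] (par : W → W) (K : Finset W) (c : W) :
    c ∈ tops par K ↔ c ∉ K ∧ par c ∈ K := by
  simp [tops]

theorem iter_closed {W : Type} {par : W → W} {S : Finset W} (hS : ∀ v ∈ S, par v ∈ S) :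
    ∀ (k : ℕ) (w : W), w ∈ S → par^[k] w ∈ S := by
  intro k
  induction k with
  | zero => intro w hw; exact hw
  | succ k ih => intro w hw; exact ih (par w) (hS w hw)

theorem DSC : DSC_stmt := by
  classical
  intro W _ _ r par dep hR
  obtain ⟨hr0, hrr, hdep⟩ := hR
  have h1 : ∀ c, c ∈ dsc par c := fun c => (mem_dsc par c c).2 ⟨0, rfl⟩
  have h3 : ∀ c w, par w ∈ dsc par c → w ∈ dsc par c := by
    intro c w h
    obtain ⟨k, hk⟩ := (mem_dsc par c _).1 h
    exact (mem_dsc par c w).2 ⟨k + 1, hk⟩
  have h2 : ∀ c w, w ∈ dsc par c → w ≠ c → par w ∈ dsc par c := by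
    intro c w h hne
    obtain ⟨k, hk⟩ := (mem_dsc par c _).1 h
    cases k with
    | zero => exact absurd hk hne
    | succ k => exact (mem_dsc par c _).2 ⟨k, hk⟩
  have hrk : ∀ k : ℕ, par^[k] r = r := by
    intro k
    induction k with
    | zero => rfl
    | succ k ih => rw [Function.iterate_succ_apply, hrr, ih]
  have h4' : ∀ (k : ℕ) (c w : W), par^[k] w = c → w ≠ c → dep c < dep w := by
    intro k
    induction k with
    | zero => intro c w h hne; exact absurd h hne
    | succ k ih =>
      intro c w h hne
      rw [Function.iterate_succ_apply] at h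
      by_cases hw : w = r
      · subst hw
        rw [hrr, hrk] at h
        exact absurd h hne
      · have h5 := hdep w hw
        by_cases hp : par w = c
        · rw [hp] at h5; omega
        · have := ih c (par w) h hp
          omega
  have h4 : ∀ c w, w ∈ dsc par c → w ≠ c → dep c < dep w := by
    intro c w h hne
    obtain ⟨k, hk⟩ := (mem_dsc par c _).1 h
    exact h4' k c w hk hne
  have h5' : ∀ (n : ℕ) (w : W), dep w = n → w ∈ dsc par r := by
    intro n
    induction n with
    | zero =>
      intro w hw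
      by_cases hwr : w = r
      · subst hwr; exact h1 w
      · have := hdep w hwr; omega
    | succ n ih =>
      intro w hw
      have hwr : w ≠ r := by
        intro h; rw [h, hr0] at hw; omega
      have := hdep w hwr
      exact h3 r w (ih (par w) (by omega))
  have h6 : ∀ a b c, a ∈ dsc par b → b ∈ dsc par c → a ∈ dsc par c := by
    intro a b c h h'
    obtain ⟨i, hi⟩ := (mem_dsc par b _).1 h
    obtain ⟨j, hj⟩ := (mem_dsc par c _).1 h'
    refine (mem_dsc par c _).2 ⟨j + i, ?_⟩
    rw [Function.iterate_add_apply, hi, hj]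
  refine ⟨h1, h2, h3, h4, fun w => h5' _ w rfl, h6, ?_⟩
  intro S hrS hS
  have ha' : ∀ (n : ℕ) (w : W), dep w = n → w ∉ S → ∃ c ∈ tops par S, w ∈ dsc par c := by
    intro n
    induction n with
    | zero =>
      intro w hw hwS
      by_cases hwr : w = r
      · subst hwr; exact absurd hrS hwS
      · have := hdep w hwr; omega
    | succ n ih =>
      intro w hw hwS
      by_cases hp : par w ∈ S
      · exact ⟨w, (mem_tops par S w).2 ⟨hwS, hp⟩, h1 w⟩
      · have hwr : w ≠ r := by
          intro h; rw [h] at hwS; exact hwS hrS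
        have := hdep w hwr
        obtain ⟨c, hc, hwc⟩ := ih (par w) (by omega) hp
        exact ⟨c, hc, h3 c w hwc⟩
  have ha : ∀ w, w ∉ S → ∃ c ∈ tops par S, w ∈ dsc par c := fun w hw => ha' _ w rfl hw
  have hb : ∀ c ∈ tops par S, c ≠ r ∧ Disjoint (dsc par c) S := by
    intro c hc
    obtain ⟨hcS, hpc⟩ := (mem_tops par S c).1 hc
    refine ⟨fun h => hcS (h ▸ hrS), ?_⟩
    rw [Finset.disjoint_left]
    intro w hw hwS
    obtain ⟨k, hk⟩ := (mem_dsc par c _).1 hw
    exact hcS (hk ▸ iter_closed hS k w hwS)
  have hc' : ∀ c ∈ tops par S, ∀ c' ∈ tops par S, ∀ (i j : ℕ) (w : W), i ≤ j →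
      par^[i] w = c → par^[j] w = c' → c = c' := by
    intro c hc c' hc' i j w hij hi hj
    obtain ⟨k, rfl⟩ := Nat.exists_eq_add_of_le hij
    rw [Nat.add_comm, Function.iterate_add_apply, hi] at hj
    cases k with
    | zero => exact hj
    | succ k =>
      rw [Function.iterate_succ_apply] at hj
      have := iter_closed hS k (par c) ((mem_tops par S c).1 hc).2
      rw [hj] at this
      exact absurd this ((mem_tops par S c').1 hc').1
  have hc : ∀ c ∈ tops par S, ∀ c' ∈ tops par S, c ≠ c' → Disjoint (dsc par c) (dsc par c') := by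
    intro c hc c' hcc' hne
    rw [Finset.disjoint_left]
    intro w hw hw'
    obtain ⟨i, hi⟩ := (mem_dsc par c _).1 hw
    obtain ⟨j, hj⟩ := (mem_dsc par c' _).1 hw'
    rcases le_total i j with h | h
    · exact hne (hc' c hc c' hcc' i j w h hi hj)
    · exact hne (hc' c' hcc' c hc j i w h hj hi).symm
  have hd : S.card + ∑ c ∈ tops par S, (dsc par c).card = Fintype.card W := by
    have h7 : (tops par S).biUnion (dsc par) = Sᶜ := by
      ext w
      rw [Finset.mem_biUnion, Finset.mem_compl]
      constructor
      · rintro ⟨c, hc, hw⟩ hwS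
        exact (Finset.disjoint_left.1 (hb c hc).2) hw hwS
      · intro hw
        exact ha w hw
    have h8 : ((tops par S).biUnion (dsc par)).card = ∑ c ∈ tops par S, (dsc par c).card :=
      Finset.card_biUnion fun c h c' h' hne => hc c h c' h' hne
    rw [← h8, h7]
    exact Finset.card_add_card_compl S
  refine ⟨ha, hb, hc, hd, fun sgn => ?_⟩
  have h9 : ∑ c ∈ tops par S, (dsc par c).card = mas par sgn S true + mas par sgn S false := by
    rw [mas, mas, topd, topd]
    have h10 := Finset.sum_filter_add_sum_filter_not (tops par S) (fun c => sgn c = true)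
      (fun c => (dsc par c).card)
    rw [← h10]
    congr 1
    apply Finset.sum_congr
    · ext c
      simp
    · intro _ _; rfl
  rw [add_assoc, ← h9]
  exact hd

end Pool.Agent.Helper55.SU
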