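import Pool.Agent.Helper18.SU.Goals2

/-!
Packet SU2 EX2: extending an embedding greedily; placing the leaves.
-/

set_option autoImplicit false

namespace Pool.Agent.Helper55.SU

open Pool.Agent.Helper18.SU

theorem EX2 (h1 : CAN_stmt) (h2 : GRE_stmt) (h3 : GLUE_stmt) (h4 : DSC_stmt) : EX2_stmt := by
  intro W V _ _ _ _ A hT r par dep hR sgn S₀ S hr0 hS0 hsub hS f₀ hf₀ O hO1 hO2
  obtain ⟨-, -, -, -, -, -, h7⟩ := h4 W r par dep hR
  obtain ⟨-, -, hdis, -, -⟩ := h7 S₀ hr0 hS0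
  let I : Finset W := (tops par S₀).filter (· ∈ S)
  have hI : ∀ c, c ∈ I ↔ c ∈ tops par S₀ ∧ c ∈ S := fun c =>
    Finset.mem_filter
  have hdsi : ∀ c, dsi par S c ⊆ S := fun c w hw => by
    have : w ∈ dsc par c ∧ w ∈ S := by simpa [dsi] using hw
    exact this.2
  have hdsi' : ∀ c, dsi par S c ⊆ dsc par c := fun c w hw => by
    have : w ∈ dsc par c ∧ w ∈ S := by simpa [dsi] using hw
    exact this.1
  have hsum : ∑ c ∈ I, bsz par S c ≤ S.card := by
    have h8 : (I.biUnion (dsi par S)).card = ∑ c ∈ I, (dsi par S c).card :=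
      Finset.card_biUnion fun c hc c' hc' hne =>
        Finset.disjoint_of_subset_left (hdsi' c) (Finset.disjoint_of_subset_right (hdsi' c')
          (hdis c ((hI c).1 hc).1 c' ((hI c').1 hc').1 hne))
    have h9 : I.biUnion (dsi par S) ⊆ S := Finset.biUnion_subset.2 fun c _ => hdsi c
    have h10 := Finset.card_le_card h9
    rw [h8] at h10
    exact h10
  obtain ⟨U, hU1, hU2⟩ := h2 W V (bsz par S) (itm A r par sgn S) (h1 W V A hT r par dep hR sgn S)
    O I S.card (fun c _ => Finset.card_le_card (hdsi c)) (fun c hc => by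
      have := hO1 c ((hI c).1 hc).1 ((hI c).1 hc).2
      omega)
  obtain ⟨f, hf1, hf2, hf3⟩ := h3 W V A r par dep hR sgn S₀ S hr0 hS0 hsub hS f₀ hf₀ U
    (fun c hc hcS => (hU1 c ((hI c).2 ⟨hc, hcS⟩)).2.2)
    (fun c hc hcS => (hU1 c ((hI c).2 ⟨hc, hcS⟩)).1.trans (hO2 c hc hcS))
    (fun c hc hcS c' hc' hcS' hne =>
      hU2 c ((hI c).2 ⟨hc, hcS⟩) c' ((hI c').2 ⟨hc', hcS'⟩) hne)
  exact ⟨f, hf1, hf2, fun c hc hcS w hw => (hU1 c ((hI c).2 ⟨hc, hcS⟩)).1 (hf3 c hc hcS w hw)⟩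

theorem two_sets {V : Type} [DecidableEq V] (P Q : Finset V) (a b : ℕ) (ha : a ≤ P.card)
    (hb : b ≤ Q.card) (hab : a + b ≤ (P ∪ Q).card) :
    ∃ L1 ⊆ P, ∃ L2 ⊆ Q, L1.card = a ∧ L2.card = b ∧ Disjoint L1 L2 := by
  by_cases h : a ≤ (P \ Q).card
  · obtain ⟨L1, hL1, hc1⟩ := Finset.exists_subset_card_eq h
    obtain ⟨L2, hL2, hc2⟩ := Finset.exists_subset_card_eq hb
    refine ⟨L1, hL1.trans Finset.sdiff_subset, L2, hL2, hc1, hc2, ?_⟩
    rw [Finset.disjoint_left]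
    intro x hx hx'
    exact (Finset.mem_sdiff.1 (hL1 hx)).2 (hL2 hx')
  · obtain ⟨L1, hL1, hL1', hc1⟩ := Finset.exists_subsuperset_card_eq
      (Finset.sdiff_subset (s := P) (t := Q)) (le_of_lt (not_le.1 h)) ha
    have h8 : P ∪ Q ⊆ L1 ∪ (Q \ L1) := by
      intro x hx
      rw [Finset.mem_union, Finset.mem_sdiff]
      by_cases hx1 : x ∈ L1
      · exact Or.inl hx1
      · refine Or.inr ⟨?_, hx1⟩
        rcases Finset.mem_union.1 hx with h | h
        · by_contra hxQ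
          exact hx1 (hL1 (Finset.mem_sdiff.2 ⟨h, hxQ⟩))
        · exact h
    have h9 := Finset.card_le_card h8
    have h10 := Finset.card_union_le L1 (Q \ L1)
    obtain ⟨L2, hL2, hc2⟩ := Finset.exists_subset_card_eq (s := Q \ L1) (n := b) (by omega)
    refine ⟨L1, hL1', L2, hL2.trans Finset.sdiff_subset, hc1, hc2, ?_⟩
    rw [Finset.disjoint_left]
    intro x hx hx'
    exact (Finset.mem_sdiff.1 (hL2 hx')).2 hx

theorem exists_inj_fun {W V : Type} [DecidableEq W] (L : Finset W) (M : Finset V) (v₀ : V)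
    (h : L.card = M.card) : ∃ g : W → V, (∀ w ∈ L, g w ∈ M) ∧
      ∀ a ∈ L, ∀ b ∈ L, g a = g b → a = b := by
  classical
  let e := Finset.equivOfCardEq h
  refine ⟨fun w => if hw : w ∈ L then (e ⟨w, hw⟩ : V) else v₀, ?_, ?_⟩
  · intro w hw
    simp only [dif_pos hw]
    exact (e ⟨w, hw⟩).2
  · intro a ha b hb hab
    simp only [dif_pos ha, dif_pos hb] at hab
    have := e.injective (Subtype.ext hab)
    exact congrArg Subtype.val this

theorem LF : LF_stmt := by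
  classical
  intro W V _ _ _ _ A r u par dep hR sgn LO LI hB f hf hc1 hc2 hc3
  obtain ⟨hLO, hLI, hpar, huLO, huLI⟩ := hB
  set S : Finset W := Finset.univ \ (LO ∪ LI) with hSdef
  have hS : ∀ w, w ∈ S ↔ w ∉ LO ∧ w ∉ LI := fun w => by
    simp [hSdef, not_or]
  obtain ⟨L1, hL1, L2, hL2, hd1, hd2, hdisj⟩ := two_sets _ _ LO.card LI.card hc1 hc2 hc3
  obtain ⟨g1, hg1, hg1'⟩ := exists_inj_fun LO L1 (f r) hd1.symm
  obtain ⟨g2, hg2, hg2'⟩ := exists_inj_fun LI L2 (f r) hd2.symm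
  obtain ⟨-, hinj, harc⟩ := hf
  have hnot : ∀ w ∈ LO, w ∉ LI := by
    intro w hw hw'
    have h1 := (hLO w hw).2.2
    have h2 := (hLI w hw').2.2
    rw [h1] at h2
    exact Bool.noConfusion h2
  let F : W → V := fun w => if w ∈ LO then g1 w else if w ∈ LI then g2 w else f w
  have F1 : ∀ w ∈ LO, F w = g1 w := fun w hw => by simp [F, hw]
  have F2 : ∀ w ∈ LI, F w = g2 w := fun w hw => by
    have : w ∉ LO := fun h => hnot w h hw
    simp [F, hw, this]
  have F3 : ∀ w ∈ S, F w = f w := fun w hw => by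
    obtain ⟨h, h'⟩ := (hS w).1 hw
    simp [F, h, h']
  have cases3 : ∀ w, w ∈ LO ∨ w ∈ LI ∨ w ∈ S := by
    intro w
    by_cases h : w ∈ LO
    · exact Or.inl h
    · by_cases h' : w ∈ LI
      · exact Or.inr (Or.inl h')
      · exact Or.inr (Or.inr ((hS w).2 ⟨h, h'⟩))
  have G1 : ∀ w ∈ LO, F w ∈ nb A true Finset.univ (f r) ∧ F w ∉ S.image f ∧ F w ∈ L1 := by
    intro w hw
    rw [F1 w hw]
    have := Finset.mem_sdiff.1 (hL1 (hg1 w hw))
    exact ⟨this.1, this.2, hg1 w hw⟩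
  have G2 : ∀ w ∈ LI, F w ∈ nb A false Finset.univ (f u) ∧ F w ∉ S.image f ∧ F w ∈ L2 := by
    intro w hw
    rw [F2 w hw]
    have := Finset.mem_sdiff.1 (hL2 (hg2 w hw))
    exact ⟨this.1, this.2, hg2 w hw⟩
  have G3 : ∀ w ∈ S, F w ∈ S.image f := fun w hw => by
    rw [F3 w hw]; exact Finset.mem_image_of_mem f hw
  refine ⟨F, fun _ _ => Finset.mem_univ _, ?_, ?_⟩
  · intro a _ b _ hab
    rcases cases3 a with ha | ha | ha <;> rcases cases3 b with hb | hb | hb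
    · rw [F1 a ha, F1 b hb] at hab
      exact hg1' a ha b hb hab
    · exact absurd ((G2 b hb).2.2) (Finset.disjoint_left.1 hdisj (hab ▸ (G1 a ha).2.2))
    · exact absurd (hab ▸ G3 b hb) (G1 a ha).2.1
    · exact absurd ((G2 a ha).2.2) (Finset.disjoint_left.1 hdisj (hab ▸ (G1 b hb).2.2))
    · rw [F2 a ha, F2 b hb] at hab
      exact hg2' a ha b hb hab
    · exact absurd (hab ▸ G3 b hb) (G2 a ha).2.1
    · exact absurd (hab ▸ G3 a ha) (G1 b hb).2.1
    · exact absurd (hab ▸ G3 a ha) (G2 b hb).2.1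
    · rw [F3 a ha, F3 b hb] at hab
      exact hinj a ha b hb hab
  · intro v _ hvr _
    obtain ⟨hp1, hp2⟩ := hpar v hvr
    have hpS : par v ∈ S := (hS _).2 ⟨hp1, hp2⟩
    rw [F3 _ hpS]
    rcases cases3 v with hv | hv | hv
    · have h1 := (G1 v hv).1
      rw [(hLO v hv).2.1, (hLO v hv).2.2]
      simpa [nb] using h1
    · have h1 := (G2 v hv).1
      rw [(hLI v hv).2.1, (hLI v hv).2.2]
      simpa [nb] using h1
    · rw [F3 v hv]
      exact harc v hv hvr hpS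

end Pool.Agent.Helper55.SU
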